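import Pool.Agent.Helper406.LacBilinear

namespace Pool.Agent.Results.MP_f72ff1_an.EndpointQ1

open Pool.Agent.Helper406.LacBilinear

/-- In every dimension `d ≥ 2` the lacunary bilinear spherical maximal function is not bounded
from `L^1 x L^1` to `L^{1/2}`. -/
theorem result (d : ℕ) (hd : 2 ≤ d) : ¬ LacBounded d 1 1 (1 / 2) := by
  have h := main d (by omega) 1 le_rfl
  have e : (1 : ℝ) / (1 + 1) = 1 / 2 := by norm_num
  rw [e] at h
  exact h

end Pool.Agent.Results.MP_f72ff1_an.EndpointQ1
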