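import Pool.Agent.Helper406.LacBilinear

namespace Pool.Agent.Results.MP_f72ff1_an.EndpointQ2

open Pool.Agent.Helper406.LacBilinear

/-- In every dimension `d ≥ 2` and for every `ε > 0` the lacunary bilinear spherical maximal
function is not bounded from `L^1 x L^{1+ε}` to `L^{(1+ε)/(2+ε)}`. -/
theorem result (d : ℕ) (hd : 2 ≤ d) (ε : ℝ) (hε : 0 < ε) :
    ¬ LacBounded d 1 (1 + ε) ((1 + ε) / (2 + ε)) := by
  have h := main d (by omega) (1 + ε) (by linarith)
  have e : (1 + ε) / (1 + (1 + ε)) = (1 + ε) / (2 + ε) := by ring_nf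
  rw [e] at h
  exact h

end Pool.Agent.Results.MP_f72ff1_an.EndpointQ2
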